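import Mathlib

/-!
# Hyperbolic elements are undistorted in their centralisers

Let a group `Γ` act by homeomorphisms on a Hausdorff space `X` with at least three points (for instance a
compact metric space), and let `γ` act as a hyperbolic homeomorphism. Then `γ` is undistorted in its
centraliser: for every finite set `S` of elements which commute with `γ` there is `M` such that a product of
`ℓ` elements of `S ∪ S⁻¹` can be equal to `γ ^ n` only if `n ≤ M ℓ`.

Consequence. Let `R` be a domain of characteristic `0` which is algebraic over `ℤ` (for instance `ℤ` or the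
integers of an imaginary quadratic field), and `Γ` a subgroup of finite index of `SL(n, R)`. Let `N` be a matrix
over `R` with `N ^ 2 = 0` and `2 rank N < n`. Then an element of `Γ` with a positive power equal
to `1 + N` is not hyperbolic in any action of `Γ` on a Hausdorff space with at least three points. For
`n ≥ 3` this concerns all elements with a positive power of the form `1 + v wᵀ`. So in the subgroups of
finite index of `SL(n, ℤ)` or `SL(n, O)` the powers and the roots of the transvections are never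
hyperbolic.

Outline of the proof. An element which commutes with `γ` fixes the repelling point `α` and the attracting
point `β`. Let `D` be a closed neighbourhood of `β` which does not contain `α`. For an element `t` which
commutes with `γ` the closed set `t D` does not contain `α`, so `γ ^ M t D ⊆ D` for large `M`; for a word of
length `ℓ` one gets `γ ^ (M ℓ) w D ⊆ D`. If `w = γ ^ (-n)` with `n > M ℓ`, then `γ ^ (-K) D ⊆ D` with
`K > 0`, and as all points of `D` other than `β` tend to `α` under the negative powers of `γ`, we get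
`D = {β}`; then all points other than `α` are equal to `β`. For the consequence one takes a matrix `C` with
`N C N = K' N`, where `K'` is a positive integer; as `2 rank N < n`, the product of `K' - N C` and `K' - C N`
is not zero, and this gives vectors `p`, `q` with `pᵀ N = 0`, `N q = 0` and `pᵀ q ≠ 0`. One may suppose that
`pᵀ q = K` is a positive integer. Let `v i` be the columns of `N` and `w i` the rows of `C N`. Then `b i = 1 + (v i) pᵀ` and
`a i = 1 + q (w i)ᵀ` commute with `u = 1 + N`, the commutator of `(b i) ^ m` and `(a i) ^ m` is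
`1 + K m ^ 2 (v i) (w i)ᵀ`, and the product of these over all `i` is `u ^ (K K' m ^ 2)`.
-/

set_option autoImplicit false

open Topology Filter Matrix

namespace Pool.Agent.Results.MP_34eaa2_al.UndistortedInCentralisers

/-- hyperbolic homeomorphisms: exactly two fixed points `α`, `β`, and for all neighbourhoods `A` of `α` and
`B` of `β` there is `N > 0` such that `f ^ n` maps the complement of `A` into `B`, and `f ^ (-n)` maps the
complement of `B` into `A`, for all `n > N` -/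
def Hyp {X : Type*} [TopologicalSpace X] (f : X ≃ₜ X) : Prop :=
  ∃ α β : X, α ≠ β ∧ (∀ x, f x = x ↔ x = α ∨ x = β) ∧
    ∀ A ∈ 𝓝 α, ∀ B ∈ 𝓝 β, ∃ N : ℕ, 0 < N ∧ ∀ n : ℕ, N < n →
      (∀ x ∉ A, (f ^ n) x ∈ B) ∧ ∀ x ∉ B, (f⁻¹ ^ n) x ∈ A

theorem undist {Γ X : Type*} [Group Γ] [TopologicalSpace X] [T2Space X]
    (h3 : ∃ x y z : X, x ≠ y ∧ x ≠ z ∧ y ≠ z) (ρ : Γ →* (X ≃ₜ X)) (γ : Γ) (hγ : Hyp (ρ γ))
    (S : Set Γ) (hS : S.Finite) (hc : ∀ s ∈ S, s * γ = γ * s) :
    ∃ M : ℕ, ∀ L : List Γ, (∀ t ∈ L, t ∈ S ∨ t⁻¹ ∈ S) → ∀ n : ℕ, L.prod = γ ^ n →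
      n ≤ M * L.length := by
  classical
  obtain ⟨α, β, hαβ, hfix, hh⟩ := hγ
  obtain ⟨x0, hxα, hxβ⟩ : ∃ x, x ≠ α ∧ x ≠ β := by
    obtain ⟨x, y, z, hxy, hxz, hyz⟩ := h3
    by_contra hcon
    push Not at hcon
    have h1 := hcon x
    have h2 := hcon y
    have h3 := hcon z
    by_cases hx : x = α
    · have hy : y = β := h2 (fun h => hxy (hx.trans h.symm))
      have hz : z = β := h3 (fun h => hxz (hx.trans h.symm))
      exact hyz (hy.trans hz.symm)
    · have hx' := h1 hx
      by_cases hy : y = α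
      · exact hxz (hx'.trans (h3 (fun h => hyz (hy.trans h.symm))).symm)
      · exact hxy (hx'.trans (h2 hy).symm)
  have ht : ∀ x, x ≠ α → Tendsto (fun n : ℕ => (ρ γ ^ n) x) atTop (𝓝 β) := by
    intro x hx
    rw [tendsto_atTop']
    intro B hB
    obtain ⟨N, _, hN⟩ := hh {x}ᶜ (isOpen_compl_singleton.mem_nhds (Ne.symm hx)) B hB
    exact ⟨N + 1, fun n hn => (hN n (by omega)).1 x (by simp)⟩
  have ht' : ∀ x, x ≠ β → Tendsto (fun n : ℕ => ((ρ γ)⁻¹ ^ n) x) atTop (𝓝 α) := by
    intro x hx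
    rw [tendsto_atTop']
    intro A hA
    obtain ⟨N, _, hN⟩ := hh A hA {x}ᶜ (isOpen_compl_singleton.mem_nhds (Ne.symm hx))
    exact ⟨N + 1, fun n hn => (hN n (by omega)).2 x (by simp)⟩
  have hfixα : ∀ t : Γ, t * γ = γ * t → ρ t α = α := by
    intro t ht1
    have hcomm : ∀ (n : ℕ) (x : X), (ρ γ ^ n) (ρ t x) = ρ t ((ρ γ ^ n) x) := by
      intro n x
      have h : ρ γ ^ n * ρ t = ρ t * ρ γ ^ n := by
        have hc : Commute γ t := ht1.symm
        rw [← map_pow, ← map_mul, ← map_mul, (hc.pow_left n).eq]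
      exact DFunLike.congr_fun h x
    have hmap : ∀ x, (ρ γ) x = x → (ρ γ) (ρ t x) = ρ t x := by
      intro x hx
      have h := hcomm 1 x
      rw [pow_one, hx] at h
      exact h
    have h1 := (hfix _).1 (hmap α ((hfix α).2 (Or.inl rfl)))
    have h2 := (hfix _).1 (hmap β ((hfix β).2 (Or.inr rfl)))
    rcases h1 with h1 | h1
    · exact h1
    · exfalso
      have h2' : ρ t β = α := by
        rcases h2 with h2 | h2
        · exact h2
        · exact absurd ((ρ t).injective (h1.trans h2.symm)) hαβ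
      have h3 : ρ t x0 ≠ α := fun h => hxβ ((ρ t).injective (h.trans h2'.symm))
      have l1 := ht (ρ t x0) h3
      have l2 : Tendsto (fun n : ℕ => ρ t ((ρ γ ^ n) x0)) atTop (𝓝 (ρ t β)) :=
        ((ρ t).continuous.tendsto β).comp (ht x0 hxα)
      rw [h2'] at l2
      have l3 : (fun n : ℕ => (ρ γ ^ n) (ρ t x0)) = fun n => ρ t ((ρ γ ^ n) x0) :=
        funext fun n => hcomm n x0
      rw [l3] at l1
      exact hαβ (tendsto_nhds_unique l2 l1)
  obtain ⟨V, U, hV, hU, hαV, hβU, hVU⟩ := t2_separation hαβ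
  obtain ⟨D, hD⟩ : ∃ D, D = closure U := ⟨_, rfl⟩
  have hDc : IsClosed D := hD ▸ isClosed_closure
  have hαD : α ∉ D := by
    intro h
    rw [hD] at h
    exact Set.not_disjoint_iff_nonempty_inter.2 (mem_closure_iff.1 h V hV hαV) hVU
  have hβD : D ∈ 𝓝 β := Filter.mem_of_superset (hU.mem_nhds hβU) (hD ▸ subset_closure)
  have hM : ∀ t : Γ, t * γ = γ * t →
      ∃ M : ℕ, ∀ n, M ≤ n → ∀ x ∈ D, (ρ γ ^ n) (ρ t x) ∈ D := by
    intro t ht1
    have hA : (ρ t '' D)ᶜ ∈ 𝓝 α := by
      refine (((ρ t).isClosed_image.2 hDc).isOpen_compl).mem_nhds ?_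
      rintro ⟨x, hx, hxe⟩
      have : x = α := (ρ t).injective (hxe.trans (hfixα t ht1).symm)
      exact hαD (this ▸ hx)
    obtain ⟨N, _, hN⟩ := hh _ hA D hβD
    exact ⟨N + 1, fun n hn x hx => (hN n (by omega)).1 _ (fun h => h ⟨x, hx, rfl⟩)⟩
  choose! m hm using hM
  have hfin : (S ∪ S⁻¹).Finite := hS.union hS.inv
  have hcS : ∀ t ∈ S ∪ S⁻¹, t * γ = γ * t := by
    intro t ht1
    rcases ht1 with h | h
    · exact hc t h
    · have h1 : Commute t⁻¹ γ := hc t⁻¹ h
      have h2 := h1.inv_left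
      rw [inv_inv] at h2
      exact h2.eq
  obtain ⟨M, hMdef⟩ : ∃ M, M = hfin.toFinset.sup m := ⟨_, rfl⟩
  have hMM : ∀ t ∈ S ∪ S⁻¹, ∀ x ∈ D, (ρ γ ^ M) (ρ t x) ∈ D := by
    intro t ht1 x hx
    refine hm t (hcS t ht1) M ?_ x hx
    rw [hMdef]
    exact Finset.le_sup (f := m) (hfin.mem_toFinset.2 ht1)
  have hword : ∀ L : List Γ, (∀ t ∈ L, t ∈ S ∪ S⁻¹) →
      ∀ x ∈ D, (ρ γ ^ (M * L.length)) (ρ L.prod x) ∈ D := by
    intro L
    induction L with
    | nil => intro _ x hx; simpa using hx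
    | cons t L ih =>
      intro hL x hx
      have h1 := ih (fun s hs => hL s (List.mem_cons_of_mem _ hs)) x hx
      have h2 := hMM t (hL t (by simp)) _ h1
      have h3 : ρ γ ^ (M * (t :: L).length) * ρ (t :: L).prod =
          ρ γ ^ M * (ρ t * (ρ γ ^ (M * L.length) * ρ L.prod)) := by
        have hcm : Commute γ t := (hcS t (hL t (by simp))).symm
        have h4 : ρ t * ρ γ ^ (M * L.length) = ρ γ ^ (M * L.length) * ρ t := by
          rw [← map_pow, ← map_mul, ← map_mul, (hcm.pow_left _).eq]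
        rw [List.prod_cons, map_mul, List.length_cons, mul_add, mul_one, ← mul_assoc (ρ t), h4,
          add_comm (M * L.length), pow_add]
        simp only [mul_assoc]
      have h5 := DFunLike.congr_fun h3 x
      simp only [Homeomorph.mul_apply] at h5
      rw [h5]
      exact h2
  refine ⟨M, fun L hL n hn => ?_⟩
  by_contra hcon
  push Not at hcon
  obtain ⟨K, hK⟩ : ∃ K, n = M * L.length + K := ⟨n - M * L.length, by omega⟩
  have hKpos : 0 < K := by omega
  have hinv : ∀ x ∈ D, ((ρ γ)⁻¹ ^ K) x ∈ D := by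
    intro x hx
    have h1 := hword (L.map (·⁻¹)).reverse (by
      intro t ht1
      rw [List.mem_reverse, List.mem_map] at ht1
      obtain ⟨s, hs, rfl⟩ := ht1
      rcases hL s hs with h | h
      · right; simpa using h
      · left; exact h) x hx
    rw [← List.prod_inv_reverse, hn, List.length_reverse, List.length_map] at h1
    have h2 : ρ γ ^ (M * L.length) * ρ (γ ^ n)⁻¹ = (ρ γ)⁻¹ ^ K := by
      rw [hK, map_inv, map_pow, pow_add, _root_.mul_inv_rev, inv_pow]
      have h3 : Commute (ρ γ ^ (M * L.length)) ((ρ γ ^ K)⁻¹) :=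
        ((Commute.refl (ρ γ)).pow_pow _ _).inv_right
      rw [← mul_assoc, h3.eq, mul_assoc, mul_inv_cancel, mul_one]
    have h4 := DFunLike.congr_fun h2 x
    rw [Homeomorph.mul_apply] at h4
    rw [← h4]
    exact h1
  have hinv' : ∀ j : ℕ, ∀ x ∈ D, ((ρ γ)⁻¹ ^ (K * j)) x ∈ D := by
    intro j
    induction j with
    | zero => intro x hx; simpa using hx
    | succ j ih =>
      intro x hx
      have h1 := hinv _ (ih x hx)
      have h2 : (ρ γ)⁻¹ ^ (K * (j + 1)) = (ρ γ)⁻¹ ^ K * (ρ γ)⁻¹ ^ (K * j) := by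
        rw [← pow_add]
        congr 1
        ring
      rw [h2, Homeomorph.mul_apply]
      exact h1
  have hDβ : ∀ x ∈ D, x = β := by
    intro x hx
    by_contra hne
    have h1 := ht' x hne
    rw [tendsto_atTop'] at h1
    obtain ⟨a, ha⟩ := h1 Dᶜ (hDc.isOpen_compl.mem_nhds hαD)
    exact ha (K * a) (by nlinarith) (hinv' a x hx)
  have h1 := ht x0 hxα
  rw [tendsto_atTop'] at h1
  obtain ⟨a, ha⟩ := h1 D hβD
  have h2 : (ρ γ ^ a) x0 = β := hDβ _ (ha a le_rfl)
  have h3 : ∀ a : ℕ, (ρ γ ^ a) β = β := by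
    intro a
    induction a with
    | zero => simp
    | succ a ih =>
      rw [pow_succ, Homeomorph.mul_apply, (hfix β).2 (Or.inr rfl), ih]
  exact hxβ ((ρ γ ^ a).injective (h2.trans (h3 a).symm))

theorem hyp_pow {X : Type*} [TopologicalSpace X] [T2Space X] {f : X ≃ₜ X} (hf : Hyp f) {r : ℕ}
    (hr : 0 < r) : Hyp (f ^ r) := by
  obtain ⟨α, β, hαβ, hfix, hh⟩ := hf
  have hpow : ∀ (x : X), f x = x → ∀ n : ℕ, (f ^ n) x = x := by
    intro x hx n
    induction n with
    | zero => simp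
    | succ n ih => rw [pow_succ, Homeomorph.mul_apply, hx, ih]
  refine ⟨α, β, hαβ, fun x => ⟨fun hx => ?_, fun hx => hpow x ((hfix x).2 hx) r⟩, ?_⟩
  · by_contra hcon
    push Not at hcon
    obtain ⟨hxα, hxβ⟩ := hcon
    obtain ⟨N, _, hN⟩ := hh {x}ᶜ (isOpen_compl_singleton.mem_nhds (Ne.symm hxα)) {x}ᶜ
      (isOpen_compl_singleton.mem_nhds (Ne.symm hxβ))
    have h1 := (hN (r * (N + 1)) (by nlinarith)).1 x (by simp)
    have h2 : ∀ n : ℕ, (f ^ (r * n)) x = x := by
      intro n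
      induction n with
      | zero => simp
      | succ n ih => rw [mul_add, mul_one, pow_add, Homeomorph.mul_apply, hx, ih]
    exact h1 (h2 (N + 1))
  · intro A hA B hB
    obtain ⟨N, hN0, hN⟩ := hh A hA B hB
    refine ⟨N, hN0, fun n hn => ?_⟩
    have h1 := hN (r * n) (by nlinarith)
    rw [← pow_mul, ← inv_pow, ← pow_mul]
    exact h1

section matrices

variable {ι R : Type*} [Fintype ι] [DecidableEq ι] [CommRing R]

/-- the matrix `1 + v wᵀ` of determinant `1` -/
def T (v w : ι → R) (h : w ⬝ᵥ v = 0) : Matrix.SpecialLinearGroup ι R :=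
  ⟨1 + vecMulVec v w, by
    rw [vecMulVec_eq Unit, det_one_add_replicateCol_mul_replicateRow, h, add_zero]⟩

theorem sl_ext (A B : Matrix.SpecialLinearGroup ι R) (h : (A : Matrix ι ι R) = (B : Matrix ι ι R)) :
    A = B := Subtype.ext h

theorem T_pow (v w : ι → R) (h : w ⬝ᵥ v = 0) (m : ℕ) :
    ((T v w h ^ m : Matrix.SpecialLinearGroup ι R) : Matrix ι ι R) = 1 + vecMulVec ((m : R) • v) w := by
  induction m with
  | zero => simp
  | succ m ih =>
    rw [pow_succ]
    change ((T v w h ^ m : Matrix.SpecialLinearGroup ι R) : Matrix ι ι R) * (1 + vecMulVec v w) = _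
    rw [ih]
    simp only [mul_add, add_mul, one_mul, mul_one, vecMulVec_mul_vecMulVec, h, zero_smul]
    ext i j
    simp [vecMulVec_apply]
    ring

theorem comm_rel (v w p q : ι → R) (hwv : w ⬝ᵥ v = 0) (hpv : p ⬝ᵥ v = 0) (hwq : w ⬝ᵥ q = 0)
    (K : ℕ) (hpq : p ⬝ᵥ q = K) (x y : ℕ) :
    T v p hpv ^ y * T q w hwq ^ x = T q w hwq ^ x * T v p hpv ^ y * T v w hwv ^ (x * y * K) := by
  apply sl_ext
  change ((T v p hpv ^ y : Matrix.SpecialLinearGroup ι R) : Matrix ι ι R) *
    ((T q w hwq ^ x : Matrix.SpecialLinearGroup ι R) : Matrix ι ι R) =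
    ((T q w hwq ^ x : Matrix.SpecialLinearGroup ι R) : Matrix ι ι R) *
    ((T v p hpv ^ y : Matrix.SpecialLinearGroup ι R) : Matrix ι ι R) *
    ((T v w hwv ^ (x * y * K) : Matrix.SpecialLinearGroup ι R) : Matrix ι ι R)
  rw [T_pow, T_pow, T_pow]
  simp only [mul_add, add_mul, one_mul, mul_one, vecMulVec_mul_vecMulVec, dotProduct_smul, hwv, hpv,
    hpq, smul_zero, zero_smul]
  ext i j
  simp [vecMulVec_apply]
  ring

theorem comm1 (v w q : ι → R) (hwv : w ⬝ᵥ v = 0) (hwq : w ⬝ᵥ q = 0) (x : ℕ) :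
    T q w hwq ^ x * T v w hwv = T v w hwv * T q w hwq ^ x := by
  apply sl_ext
  change ((T q w hwq ^ x : Matrix.SpecialLinearGroup ι R) : Matrix ι ι R) * (1 + vecMulVec v w) =
    (1 + vecMulVec v w) * ((T q w hwq ^ x : Matrix.SpecialLinearGroup ι R) : Matrix ι ι R)
  rw [T_pow]
  simp only [mul_add, add_mul, one_mul, mul_one, vecMulVec_mul_vecMulVec, dotProduct_smul, hwv, hwq,
    smul_zero, zero_smul]
  ext i j
  simp [vecMulVec_apply]
  ring

theorem comm2 (v w p : ι → R) (hwv : w ⬝ᵥ v = 0) (hpv : p ⬝ᵥ v = 0) (x : ℕ) :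
    T v p hpv ^ x * T v w hwv = T v w hwv * T v p hpv ^ x := by
  apply sl_ext
  change ((T v p hpv ^ x : Matrix.SpecialLinearGroup ι R) : Matrix ι ι R) * (1 + vecMulVec v w) =
    (1 + vecMulVec v w) * ((T v p hpv ^ x : Matrix.SpecialLinearGroup ι R) : Matrix ι ι R)
  rw [T_pow]
  simp only [mul_add, add_mul, one_mul, mul_one, vecMulVec_mul_vecMulVec, dotProduct_smul, hwv, hpv,
    smul_zero, zero_smul]
  ext i j
  simp [vecMulVec_apply]
  ring

theorem exists_pq [IsDomain R] (hι : 3 ≤ Fintype.card ι) (v w : ι → R) (hv : v ≠ 0) (hw : w ≠ 0) :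
    ∃ p q : ι → R, p ⬝ᵥ v = 0 ∧ w ⬝ᵥ q = 0 ∧ p ⬝ᵥ q ≠ 0 := by
  obtain ⟨i, j, hi, hj, hij⟩ : ∃ i j, v i ≠ 0 ∧ w j ≠ 0 ∧ (i = j → ∀ k, k ≠ i → w k = 0) := by
    by_cases h : ∃ i j, i ≠ j ∧ v i ≠ 0 ∧ w j ≠ 0
    · obtain ⟨i, j, h1, h2, h3⟩ := h
      exact ⟨i, j, h2, h3, fun h => absurd h h1⟩
    · push Not at h
      obtain ⟨i, hi⟩ := Function.ne_iff.1 hv
      obtain ⟨j, hj⟩ := Function.ne_iff.1 hw
      exact ⟨i, j, hi, hj, fun _ k hk => h i k (Ne.symm hk) hi⟩
  obtain ⟨k, hki, hkj⟩ : ∃ k, k ≠ i ∧ k ≠ j := by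
    by_contra hcon
    push Not at hcon
    have h1 : (Finset.univ : Finset ι) ⊆ {i, j} := by
      intro k _
      rw [Finset.mem_insert, Finset.mem_singleton]
      by_cases h : k = i
      · exact Or.inl h
      · exact Or.inr (hcon k h)
    have h2 := Finset.card_le_card h1
    rw [Finset.card_univ] at h2
    have h3 := Finset.card_le_two (a := i) (b := j)
    omega
  refine ⟨v i • Pi.single k 1 - v k • Pi.single i 1, w j • Pi.single k 1 - w k • Pi.single j 1,
    ?_, ?_, ?_⟩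
  · simp [sub_dotProduct, mul_comm]
  · simp [dotProduct_sub, mul_comm]
  · by_cases h : i = j
    · subst h
      have h1 := hij rfl k hki
      simp [sub_dotProduct, dotProduct_sub, h1, hki, hi, hj, Pi.single_apply]
    · simp [sub_dotProduct, dotProduct_sub, hki, hkj, hi, hj, Pi.single_apply, Ne.symm hki,
        Ne.symm hkj, h, Ne.symm h]

theorem exists_ginv [IsDomain R] [CharZero R] [Algebra.IsAlgebraic ℤ R] (N : Matrix ι ι R) :
    ∃ (C : Matrix ι ι R) (k : ℕ), 0 < k ∧ N * C * N = (k : R) • N := by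
  have hinj : Function.Injective (algebraMap R (FractionRing R)) :=
    IsFractionRing.injective R (FractionRing R)
  obtain ⟨N', hN'⟩ : ∃ N' : Matrix ι ι (FractionRing R), N' = N.map (algebraMap R (FractionRing R)) :=
    ⟨_, rfl⟩
  obtain ⟨f, hf⟩ : ∃ f, f = Matrix.toLin' N' := ⟨_, rfl⟩
  obtain ⟨s, hs⟩ := f.rangeRestrict.exists_rightInverse_of_surjective (LinearMap.range_rangeRestrict f)
  obtain ⟨g, hg⟩ := LinearMap.exists_extend s
  have hfgf : f ∘ₗ g ∘ₗ f = f := by
    refine LinearMap.ext fun v => ?_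
    have h1 : g (f v) = s ⟨f v, LinearMap.mem_range_self f v⟩ :=
      LinearMap.congr_fun hg ⟨f v, LinearMap.mem_range_self f v⟩
    have h2 := congrArg Subtype.val (LinearMap.congr_fun hs ⟨f v, LinearMap.mem_range_self f v⟩)
    rw [LinearMap.comp_apply, LinearMap.comp_apply, h1]
    exact h2
  have hG : N' * LinearMap.toMatrix' g * N' = N' := by
    apply Matrix.toLin'.injective
    rw [Matrix.toLin'_mul, Matrix.toLin'_mul, Matrix.toLin'_toMatrix', ← hf, LinearMap.comp_assoc]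
    exact hfgf
  obtain ⟨b, hb⟩ := IsLocalization.exist_integer_multiples_of_finite (nonZeroDivisors R)
    (fun ij : ι × ι => LinearMap.toMatrix' g ij.1 ij.2)
  choose c hc using hb
  obtain ⟨C', hC'⟩ : ∃ C' : Matrix ι ι R, C' = Matrix.of fun i j => c (i, j) := ⟨_, rfl⟩
  have hC'' : C'.map (algebraMap R (FractionRing R)) =
      algebraMap R (FractionRing R) (b : R) • LinearMap.toMatrix' g := by
    ext i j
    have h := hc (i, j)
    rw [Matrix.map_apply, hC', Matrix.of_apply, Matrix.smul_apply, h, Algebra.smul_def, smul_eq_mul]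
  have hN : N * C' * N = (b : R) • N := by
    apply Matrix.map_injective hinj
    dsimp only
    rw [Matrix.map_mul, Matrix.map_mul, ← hN', hC'', Matrix.mul_smul, Matrix.smul_mul, hG, hN']
    ext i j
    simp
  obtain ⟨k, hk, s', hs'⟩ := (Algebra.IsAlgebraic.isAlgebraic (R := ℤ) (b : R)).exists_nonzero_dvd
    b.2
  obtain ⟨K, hK⟩ : ∃ K : ℕ, K = k.natAbs ^ 2 := ⟨_, rfl⟩
  have h1 : (K : ℤ) = k * k := by
    rw [hK]
    push_cast
    rw [sq_abs, pow_two]
  have h2 : ((K : ℤ) : R) = ((k * k : ℤ) : R) := by rw [h1]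
  have h3 : (K : R) = (k : R) * k := by simpa using h2
  refine ⟨(s' * k) • C', K, hK ▸ pow_pos (Int.natAbs_pos.2 hk) 2, ?_⟩
  have h4 : (k : R) = b * s' := by simpa using hs'
  rw [Matrix.mul_smul, Matrix.smul_mul, hN, smul_smul, h3]
  congr 1
  calc s' * k * (b : R) = (b * s') * k := by ring
    _ = k * k := by rw [← h4]

theorem list_prod (v w : ι → ι → R) (hwv : ∀ i j, w i ⬝ᵥ v j = 0) (t : ℕ) (l : List ι) :
    (((l.map fun i => T (v i) (w i) (hwv i i) ^ t).prod : Matrix.SpecialLinearGroup ι R) :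
      Matrix ι ι R) = 1 + (t : R) • (l.map fun i => vecMulVec (v i) (w i)).sum := by
  induction l with
  | nil => simp
  | cons i l ih =>
    rw [List.map_cons, List.prod_cons, List.map_cons, List.sum_cons]
    change ((T (v i) (w i) (hwv i i) ^ t : Matrix.SpecialLinearGroup ι R) : Matrix ι ι R) *
      (((l.map fun i => T (v i) (w i) (hwv i i) ^ t).prod : Matrix.SpecialLinearGroup ι R) :
      Matrix ι ι R) = _
    rw [ih, T_pow]
    have h0 : ∀ l : List ι, vecMulVec (v i) (w i) * (l.map fun i => vecMulVec (v i) (w i)).sum = 0 := by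
      intro l
      induction l with
      | nil => simp
      | cons j l ih =>
        rw [List.map_cons, List.sum_cons, mul_add, ih, vecMulVec_mul_vecMulVec, hwv]
        simp
    have h1 : vecMulVec ((t : R) • v i) (w i) = (t : R) • vecMulVec (v i) (w i) := by
      ext a b
      simp [vecMulVec_apply]
      ring
    rw [h1, add_mul, one_mul, mul_add, mul_one, Matrix.smul_mul, Matrix.mul_smul, h0 l]
    simp only [smul_zero, add_zero, smul_add]
    abel

theorem card_le {K : Type*} [Field K] (N X Y : Matrix ι ι K) (h : N * X + Y * N = 1) :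
    Fintype.card ι ≤ 2 * N.rank := by
  have h1 : (⊤ : Submodule K (ι → K)) ≤
      LinearMap.range (N * X).mulVecLin ⊔ LinearMap.range (Y * N).mulVecLin := by
    intro x _
    have h2 : x = (N * X) *ᵥ x + (Y * N) *ᵥ x := by
      rw [← Matrix.add_mulVec, h, Matrix.one_mulVec]
    rw [h2]
    exact Submodule.add_mem_sup ⟨x, rfl⟩ ⟨x, rfl⟩
  have h2 := Submodule.finrank_mono h1
  rw [finrank_top, Module.finrank_fintype_fun_eq_card] at h2
  have h3 := Submodule.finrank_add_le_finrank_add_finrank (LinearMap.range (N * X).mulVecLin)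
    (LinearMap.range (Y * N).mulVecLin)
  have h5 : Module.finrank K (LinearMap.range (N * X).mulVecLin) ≤ N.rank :=
    Matrix.rank_mul_le_left N X
  have h6 : Module.finrank K (LinearMap.range (Y * N).mulVecLin) ≤ N.rank :=
    Matrix.rank_mul_le_right Y N
  omega

theorem exists_pq_rank [IsDomain R] [CharZero R] (N C : Matrix ι ι R) (k : ℕ) (hk : 0 < k)
    (hC : N * C * N = (k : R) • N)
    (hr : 2 * (N.map (algebraMap R (FractionRing R))).rank < Fintype.card ι) :
    ∃ p q : ι → R, p ᵥ* N = 0 ∧ N *ᵥ q = 0 ∧ p ⬝ᵥ q ≠ 0 := by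
  by_contra hcon
  push Not at hcon
  have hP : ((k : R) • (1 : Matrix ι ι R) - N * C) * N = 0 := by
    rw [sub_mul, hC, Matrix.smul_mul, one_mul, sub_self]
  have hQ : N * ((k : R) • (1 : Matrix ι ι R) - C * N) = 0 := by
    rw [mul_sub, ← mul_assoc, hC, Matrix.mul_smul, mul_one, sub_self]
  have hPQ : ((k : R) • (1 : Matrix ι ι R) - N * C) * ((k : R) • (1 : Matrix ι ι R) - C * N) = 0 := by
    ext i j
    have h := hcon (Pi.single i 1 ᵥ* ((k : R) • (1 : Matrix ι ι R) - N * C))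
      (((k : R) • (1 : Matrix ι ι R) - C * N) *ᵥ Pi.single j 1)
      (by rw [Matrix.vecMul_vecMul, hP, Matrix.vecMul_zero])
      (by rw [Matrix.mulVec_mulVec, hQ, Matrix.zero_mulVec])
    rw [Matrix.dotProduct_mulVec, Matrix.vecMul_vecMul] at h
    simpa using h
  have hinj : Function.Injective (algebraMap R (FractionRing R)) :=
    IsFractionRing.injective R (FractionRing R)
  have hk0 : algebraMap R (FractionRing R) (k : R) ≠ 0 := by
    rw [Ne, map_eq_zero_iff _ hinj]
    exact_mod_cast hk.ne'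
  have h1 : ((k : R) * k) • (1 : Matrix ι ι R) = N * ((k : R) • C - C * C * N) + (k : R) • C * N := by
    have h2 : ((k : R) • (1 : Matrix ι ι R) - N * C) * ((k : R) • (1 : Matrix ι ι R) - C * N) =
        ((k : R) * k) • (1 : Matrix ι ι R) - (N * ((k : R) • C - C * C * N) + (k : R) • C * N) := by
      simp only [sub_mul, mul_sub, Matrix.smul_mul, Matrix.mul_smul, one_mul, mul_one, smul_smul,
        Matrix.mul_assoc]
      abel
    rw [h2] at hPQ
    exact sub_eq_zero.1 hPQ
  have h2 := congrArg (fun A : Matrix ι ι R => A.map (algebraMap R (FractionRing R))) h1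
  obtain ⟨N', hN'⟩ : ∃ N', N' = N.map (algebraMap R (FractionRing R)) := ⟨_, rfl⟩
  obtain ⟨a, ha⟩ : ∃ a, a = algebraMap R (FractionRing R) (k : R) := ⟨_, rfl⟩
  have h3 : (a * a) • (1 : Matrix ι ι (FractionRing R)) =
      N' * ((k : R) • C - C * C * N).map (algebraMap R (FractionRing R)) +
      ((k : R) • C).map (algebraMap R (FractionRing R)) * N' := by
    rw [hN', ← Matrix.map_mul, ← Matrix.map_mul, ← Matrix.map_add _ (map_add _), ← h2, ha]
    ext i j
    by_cases h : i = j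
    · simp [h]
    · simp [h]
  have haa : a * a ≠ 0 := by rw [ha]; exact mul_ne_zero hk0 hk0
  have h4 := card_le N' ((a * a)⁻¹ • ((k : R) • C - C * C * N).map (algebraMap R (FractionRing R)))
    ((a * a)⁻¹ • ((k : R) • C).map (algebraMap R (FractionRing R))) (by
      rw [Matrix.mul_smul, Matrix.smul_mul, ← smul_add, ← h3, smul_smul, inv_mul_cancel₀ haa,
        one_smul])
  rw [hN'] at h4
  omega

theorem final0 [IsDomain R] [CharZero R] [Algebra.IsAlgebraic ℤ R]
    (Γ : Subgroup (Matrix.SpecialLinearGroup ι R)) (hΓ : Γ.index ≠ 0) (u : Γ) (N : Matrix ι ι R)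
    (hNN : N * N = 0) (p q : ι → R) (hpN : p ᵥ* N = 0) (hNq : N *ᵥ q = 0) (hpq : p ⬝ᵥ q ≠ 0)
    (hu : ((u : Matrix.SpecialLinearGroup ι R) : Matrix ι ι R) = 1 + N)
    {X : Type*} [TopologicalSpace X] [T2Space X]
    (h3 : ∃ x y z : X, x ≠ y ∧ x ≠ z ∧ y ≠ z) (ρ : Γ →* (X ≃ₜ X)) : ¬ Hyp (ρ u) := by
  intro hyp
  obtain ⟨C, K₂, hK₂, hC⟩ := exists_ginv N
  obtain ⟨k, hk, s, hs⟩ := (Algebra.IsAlgebraic.isAlgebraic (R := ℤ) (p ⬝ᵥ q)).exists_nonzero_dvd
    (mem_nonZeroDivisors_of_ne_zero hpq)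
  obtain ⟨K, hK⟩ : ∃ K : ℕ, K = k.natAbs ^ 2 := ⟨_, rfl⟩
  have hKpos : 0 < K := by
    rw [hK]
    exact pow_pos (Int.natAbs_pos.2 hk) 2
  have hKR : (K : R) = (k : R) * (k : R) := by
    have h1 : (K : ℤ) = k * k := by
      rw [hK]
      push_cast
      rw [sq_abs, pow_two]
    have h2 : ((K : ℤ) : R) = ((k * k : ℤ) : R) := by rw [h1]
    simpa using h2
  obtain ⟨v, hv⟩ : ∃ v : ι → ι → R, v = fun i => N *ᵥ Pi.single i 1 := ⟨_, rfl⟩
  obtain ⟨w, hw⟩ : ∃ w : ι → ι → R, w = fun i => Pi.single i 1 ᵥ* (C * N) := ⟨_, rfl⟩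
  have hwv : ∀ i j, w i ⬝ᵥ v j = 0 := by
    intro i j
    rw [hv, hw]
    dsimp only
    rw [← Matrix.dotProduct_mulVec, Matrix.mulVec_mulVec, Matrix.mul_assoc, hNN]
    simp
  have hpv : ∀ i, p ⬝ᵥ v i = 0 := by
    intro i
    rw [hv]
    dsimp only
    rw [Matrix.dotProduct_mulVec, hpN, zero_dotProduct]
  have hwq : ∀ i, w i ⬝ᵥ ((s * k) • q) = 0 := by
    intro i
    rw [hw]
    dsimp only
    rw [← Matrix.dotProduct_mulVec, Matrix.mulVec_smul, ← Matrix.mulVec_mulVec, hNq]
    simp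
  have hpq' : p ⬝ᵥ ((s * k) • q) = K := by
    rw [dotProduct_smul, smul_eq_mul, hKR]
    have h1 : (k : R) = (p ⬝ᵥ q) * s := by simpa using hs
    calc s * k * (p ⬝ᵥ q) = (p ⬝ᵥ q) * s * k := by ring
      _ = k * k := by rw [← h1]
  have hsum : (Finset.univ.toList.map fun i => vecMulVec (v i) (w i)).sum = (K₂ : R) • N := by
    rw [Finset.sum_map_toList, ← hC]
    ext a b
    rw [Matrix.sum_apply, Matrix.mul_assoc, Matrix.mul_apply]
    refine Finset.sum_congr rfl fun i _ => ?_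
    rw [vecMulVec_apply, hv, hw]
    simp
  have hNpow : ∀ n : ℕ, (1 + N) ^ n = 1 + (n : R) • N := by
    intro n
    induction n with
    | zero => simp
    | succ n ih =>
      rw [pow_succ, ih]
      simp only [add_mul, mul_add, one_mul, mul_one, Matrix.smul_mul, hNN, smul_zero, add_zero]
      push_cast
      rw [add_smul, one_smul]
      abel
  obtain ⟨e, he⟩ : ∃ e : ℕ, e = Nat.factorial Γ.index := ⟨_, rfl⟩
  have hepos : 0 < e := he ▸ Nat.factorial_pos _
  have hmem : ∀ g : Matrix.SpecialLinearGroup ι R, g ^ e ∈ Γ := fun g =>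
    Subgroup.pow_mem_of_index_ne_zero_of_dvd hΓ g (fun m hm hm2 => he ▸ Nat.dvd_factorial hm hm2)
  obtain ⟨A, hAdef⟩ : ∃ A : ι → Γ, ∀ i, (A i : Matrix.SpecialLinearGroup ι R) =
    T _ (w i) (hwq i) ^ e := ⟨fun i => ⟨_, hmem _⟩, fun i => rfl⟩
  obtain ⟨B, hBdef⟩ : ∃ B : ι → Γ, ∀ i, (B i : Matrix.SpecialLinearGroup ι R) =
    T (v i) p (hpv i) ^ e := ⟨fun i => ⟨_, hmem _⟩, fun i => rfl⟩
  have key : ∀ (m : ℕ) (i : ι), (((B i)⁻¹ ^ m * ((A i)⁻¹ ^ m * (B i ^ m * A i ^ m)) : Γ) :
      Matrix.SpecialLinearGroup ι R) = T (v i) (w i) (hwv i i) ^ ((e * m) * (e * m) * K) := by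
    intro m i
    have h1 := comm_rel (v i) (w i) p _ (hwv i i) (hpv i) (hwq i) K hpq' (e * m) (e * m)
    rw [pow_mul, pow_mul, ← hAdef, ← hBdef] at h1
    push_cast
    rw [h1, inv_pow, inv_pow]
    group
  have hcA : ∀ i, A i * u = u * A i := by
    intro i
    apply Subtype.ext
    push_cast
    rw [hAdef]
    apply sl_ext
    change ((T _ (w i) (hwq i) ^ e : Matrix.SpecialLinearGroup ι R) : Matrix ι ι R) *
      ((u : Matrix.SpecialLinearGroup ι R) : Matrix ι ι R) =
      ((u : Matrix.SpecialLinearGroup ι R) : Matrix ι ι R) *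
      ((T _ (w i) (hwq i) ^ e : Matrix.SpecialLinearGroup ι R) : Matrix ι ι R)
    have h1 : w i ᵥ* N = 0 := by
      rw [hw]
      dsimp only
      rw [Matrix.vecMul_vecMul, Matrix.mul_assoc, hNN]
      simp
    have e1 : vecMulVec ((e : R) • (s * (k : R)) • q) (w i) * N = 0 := by
      rw [vecMulVec_mul, h1]
      ext a b
      simp [vecMulVec_apply]
    have e2 : N * vecMulVec ((e : R) • (s * (k : R)) • q) (w i) = 0 := by
      rw [mul_vecMulVec, Matrix.mulVec_smul, Matrix.mulVec_smul, hNq]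
      ext a b
      simp [vecMulVec_apply]
    rw [T_pow, hu]
    simp only [mul_add, add_mul, one_mul, mul_one, e1, e2, add_zero, zero_add]
    abel
  have hcB : ∀ i, B i * u = u * B i := by
    intro i
    apply Subtype.ext
    push_cast
    rw [hBdef]
    apply sl_ext
    change ((T (v i) p (hpv i) ^ e : Matrix.SpecialLinearGroup ι R) : Matrix ι ι R) *
      ((u : Matrix.SpecialLinearGroup ι R) : Matrix ι ι R) =
      ((u : Matrix.SpecialLinearGroup ι R) : Matrix ι ι R) *
      ((T (v i) p (hpv i) ^ e : Matrix.SpecialLinearGroup ι R) : Matrix ι ι R)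
    have h1 : N *ᵥ v i = 0 := by
      rw [hv]
      dsimp only
      rw [Matrix.mulVec_mulVec, hNN, Matrix.zero_mulVec]
    have e1 : vecMulVec ((e : R) • v i) p * N = 0 := by
      rw [vecMulVec_mul, hpN]
      ext a b
      simp [vecMulVec_apply]
    have e2 : N * vecMulVec ((e : R) • v i) p = 0 := by
      rw [mul_vecMulVec, Matrix.mulVec_smul, h1]
      ext a b
      simp [vecMulVec_apply]
    rw [T_pow, hu]
    simp only [mul_add, add_mul, one_mul, mul_one, e1, e2, add_zero, zero_add]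
    abel
  obtain ⟨M, hM⟩ := undist h3 ρ u hyp (Set.range A ∪ Set.range B)
    ((Set.finite_range A).union (Set.finite_range B)) (by
      rintro t (⟨i, rfl⟩ | ⟨i, rfl⟩)
      · exact hcA i
      · exact hcB i)
  have h1 : ∀ m : ℕ, (e * m) * (e * m) * K * K₂ ≤ M * (Fintype.card ι * (m + (m + (m + m)))) := by
    intro m
    obtain ⟨W, hW⟩ : ∃ W : ι → List Γ, W = fun i => List.replicate m (B i)⁻¹ ++
      (List.replicate m (A i)⁻¹ ++ (List.replicate m (B i) ++ List.replicate m (A i))) := ⟨_, rfl⟩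
    have h2 := hM ((Finset.univ.toList.map W).flatten) (by
        intro t ht
        rw [List.mem_flatten] at ht
        obtain ⟨l, hl, ht⟩ := ht
        rw [List.mem_map] at hl
        obtain ⟨i, -, rfl⟩ := hl
        rw [hW] at ht
        simp only [List.mem_append, List.mem_replicate] at ht
        rcases ht with ⟨_, rfl⟩ | ⟨_, rfl⟩ | ⟨_, rfl⟩ | ⟨_, rfl⟩
        · right; rw [inv_inv]; exact Or.inr ⟨i, rfl⟩
        · right; rw [inv_inv]; exact Or.inl ⟨i, rfl⟩
        · left; exact Or.inr ⟨i, rfl⟩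
        · left; exact Or.inl ⟨i, rfl⟩) ((e * m) * (e * m) * K * K₂) (by
        apply Subtype.ext
        rw [List.prod_flatten, List.map_map, Subgroup.val_list_prod, List.map_map]
        have h4 : (Finset.univ.toList.map ((Subtype.val : Γ → Matrix.SpecialLinearGroup ι R) ∘
            (List.prod ∘ W))) = Finset.univ.toList.map
            (fun i => T (v i) (w i) (hwv i i) ^ ((e * m) * (e * m) * K)) := by
          refine List.map_congr_left fun i _ => ?_
          rw [Function.comp_apply, Function.comp_apply, hW]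
          simp only [List.prod_append, List.prod_replicate]
          exact key m i
        rw [h4]
        apply sl_ext
        rw [list_prod v w hwv, hsum]
        have h5 : ∀ n : ℕ, (((u ^ n : Γ) : Matrix.SpecialLinearGroup ι R) : Matrix ι ι R) =
            1 + (n : R) • N := by
          intro n
          have h6 : (((u ^ n : Γ) : Matrix.SpecialLinearGroup ι R) : Matrix ι ι R) =
              ((u : Matrix.SpecialLinearGroup ι R) : Matrix ι ι R) ^ n := by
            rw [Subgroup.coe_pow]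
            exact Matrix.SpecialLinearGroup.coe_pow (u : Matrix.SpecialLinearGroup ι R) n
          rw [h6, hu, hNpow]
        rw [h5]
        congr 1
        rw [smul_smul]
        push_cast
        rfl)
    have h5 : ((Finset.univ.toList.map W).flatten).length =
        Fintype.card ι * (m + (m + (m + m))) := by
      rw [List.length_flatten, List.map_map]
      have h6 : ((Finset.univ : Finset ι).toList.map (List.length ∘ W)) =
          (Finset.univ : Finset ι).toList.map (fun _ => m + (m + (m + m))) := by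
        refine List.map_congr_left fun i _ => ?_
        rw [Function.comp_apply, hW]
        simp
      rw [h6]
      simp
    rw [h5] at h2
    exact h2
  have h2 := h1 (4 * M * Fintype.card ι + 1)
  have h4 : 1 ≤ e * e * K * K₂ :=
    Nat.mul_pos (Nat.mul_pos (Nat.mul_pos hepos hepos) hKpos) hK₂
  obtain ⟨c, hc⟩ : ∃ c, c = M * Fintype.card ι := ⟨_, rfl⟩
  have h5 : (e * (4 * M * Fintype.card ι + 1)) * (e * (4 * M * Fintype.card ι + 1)) * K * K₂ =
      (e * e * K * K₂) * (4 * c + 1) ^ 2 := by rw [hc]; ring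
  have h6 : M * (Fintype.card ι * ((4 * M * Fintype.card ι + 1) + ((4 * M * Fintype.card ι + 1) +
      ((4 * M * Fintype.card ι + 1) + (4 * M * Fintype.card ι + 1))))) =
      4 * c * (4 * c + 1) := by rw [hc]; ring
  rw [h5, h6] at h2
  have h7 : 1 * (4 * c + 1) ^ 2 ≤ (e * e * K * K₂) * (4 * c + 1) ^ 2 :=
    Nat.mul_le_mul_right _ h4
  nlinarith

theorem final2 [IsDomain R] [CharZero R] [Algebra.IsAlgebraic ℤ R]
    (Γ : Subgroup (Matrix.SpecialLinearGroup ι R)) (hΓ : Γ.index ≠ 0) (u : Γ) (r : ℕ) (hr : 0 < r)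
    (N : Matrix ι ι R) (hNN : N * N = 0) (p q : ι → R) (hpN : p ᵥ* N = 0) (hNq : N *ᵥ q = 0)
    (hpq : p ⬝ᵥ q ≠ 0)
    (hu : ((u : Matrix.SpecialLinearGroup ι R) : Matrix ι ι R) ^ r = 1 + N)
    {X : Type*} [TopologicalSpace X] [T2Space X]
    (h3 : ∃ x y z : X, x ≠ y ∧ x ≠ z ∧ y ≠ z) (ρ : Γ →* (X ≃ₜ X)) : ¬ Hyp (ρ u) := by
  intro hyp
  have h1 := hyp_pow hyp hr
  rw [← map_pow] at h1
  have h2 : (((u ^ r : Γ) : Matrix.SpecialLinearGroup ι R) : Matrix ι ι R) =
      ((u : Matrix.SpecialLinearGroup ι R) : Matrix ι ι R) ^ r := by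
    rw [Subgroup.coe_pow]
    exact Matrix.SpecialLinearGroup.coe_pow (u : Matrix.SpecialLinearGroup ι R) r
  exact final0 Γ hΓ (u ^ r) N hNN p q hpN hNq hpq (h2.trans hu) h3 ρ h1

theorem final4 [IsDomain R] [CharZero R] [Algebra.IsAlgebraic ℤ R]
    (Γ : Subgroup (Matrix.SpecialLinearGroup ι R)) (hΓ : Γ.index ≠ 0) (u : Γ) (r : ℕ) (hr : 0 < r)
    (N : Matrix ι ι R) (hNN : N * N = 0)
    (hrank : 2 * (N.map (algebraMap R (FractionRing R))).rank < Fintype.card ι)
    (hu : ((u : Matrix.SpecialLinearGroup ι R) : Matrix ι ι R) ^ r = 1 + N)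
    {X : Type*} [TopologicalSpace X] [T2Space X]
    (h3 : ∃ x y z : X, x ≠ y ∧ x ≠ z ∧ y ≠ z) (ρ : Γ →* (X ≃ₜ X)) : ¬ Hyp (ρ u) := by
  obtain ⟨C, k, hk, hC⟩ := exists_ginv N
  obtain ⟨p, q, hpN, hNq, hpq⟩ := exists_pq_rank N C k hk hC hrank
  exact final2 Γ hΓ u r hr N hNN p q hpN hNq hpq hu h3 ρ

theorem final3 [IsDomain R] [CharZero R] [Algebra.IsAlgebraic ℤ R] (hι : 3 ≤ Fintype.card ι)
    (Γ : Subgroup (Matrix.SpecialLinearGroup ι R)) (hΓ : Γ.index ≠ 0) (u : Γ) (r : ℕ) (hr : 0 < r)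
    (v w : ι → R) (hv : v ≠ 0) (hw : w ≠ 0)
    (hu : ((u : Matrix.SpecialLinearGroup ι R) : Matrix ι ι R) ^ r = 1 + vecMulVec v w)
    {X : Type*} [TopologicalSpace X] [T2Space X]
    (h3 : ∃ x y z : X, x ≠ y ∧ x ≠ z ∧ y ≠ z) (ρ : Γ →* (X ≃ₜ X)) : ¬ Hyp (ρ u) := by
  have hwv : w ⬝ᵥ v = 0 := by
    have h2 : ((u ^ r : Γ) : Matrix.SpecialLinearGroup ι R).1.det = 1 :=
      ((u ^ r : Γ) : Matrix.SpecialLinearGroup ι R).2
    have h4 : (((u ^ r : Γ) : Matrix.SpecialLinearGroup ι R) : Matrix ι ι R) =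
        ((u : Matrix.SpecialLinearGroup ι R) : Matrix ι ι R) ^ r := by
      rw [Subgroup.coe_pow]
      exact Matrix.SpecialLinearGroup.coe_pow (u : Matrix.SpecialLinearGroup ι R) r
    have h5 : (1 + vecMulVec v w).det = 1 := by
      rw [← hu, ← h4]
      exact h2
    rw [vecMulVec_eq Unit, det_one_add_replicateCol_mul_replicateRow] at h5
    simpa using h5
  obtain ⟨p, q, hpv, hwq, hpq⟩ := exists_pq hι v w hv hw
  refine final2 Γ hΓ u r hr (vecMulVec v w) ?_ p q ?_ ?_ hpq hu h3 ρ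
  · rw [vecMulVec_mul_vecMulVec, hwv]
    ext a b
    simp [vecMulVec_apply]
  · rw [vecMul_vecMulVec, hpv]
    simp
  · rw [vecMulVec_mulVec, hwq]
    simp

end matrices

universe a b c d

/-- `u` is not hyperbolic in any action of the group on a Hausdorff space with at least three points -/
def NeverHyp {Γ : Type a} [Group Γ] (u : Γ) : Prop :=
  ∀ (X : Type b) [TopologicalSpace X] [T2Space X], (∃ x y z : X, x ≠ y ∧ x ≠ z ∧ y ≠ z) →
    ∀ ρ : Γ →* (X ≃ₜ X), ¬ Hyp (ρ u)

/-- hyperbolic elements are undistorted in their centralisers -/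
def Undistorted (Γ : Type a) [Group Γ] : Prop :=
  ∀ (X : Type b) [TopologicalSpace X] [T2Space X], (∃ x y z : X, x ≠ y ∧ x ≠ z ∧ y ≠ z) →
    ∀ (ρ : Γ →* (X ≃ₜ X)) (γ : Γ), Hyp (ρ γ) → ∀ S : Set Γ, S.Finite → (∀ s ∈ S, s * γ = γ * s) →
    ∃ M : ℕ, ∀ L : List Γ, (∀ t ∈ L, t ∈ S ∨ t⁻¹ ∈ S) → ∀ n : ℕ, L.prod = γ ^ n →
      n ≤ M * L.length

theorem result :
    (∀ (Γ : Type a) [Group Γ], Undistorted.{a, b} Γ) ∧
    (∀ (ι : Type c) (R : Type d) [Fintype ι] [DecidableEq ι] [CommRing R] [IsDomain R] [CharZero R]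
      [Algebra.IsAlgebraic ℤ R] (Γ : Subgroup (Matrix.SpecialLinearGroup ι R)), Γ.index ≠ 0 →
      ∀ (u : Γ) (r : ℕ), 0 < r → ∀ N : Matrix ι ι R, N * N = 0 →
      2 * (N.map (algebraMap R (FractionRing R))).rank < Fintype.card ι →
      u.1.1 ^ r = 1 + N → NeverHyp.{max c d, b} u) := by
  refine ⟨?_, ?_⟩
  · intro Γ _ X _ _ h3 ρ γ hγ S hS hc
    exact undist h3 ρ γ hγ S hS hc
  · intro ι R _ _ _ _ _ _ Γ hΓ u r hr N hNN hrank hu X _ _ h3 ρ
    exact final4 Γ hΓ u r hr N hNN hrank hu h3 ρ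

end Pool.Agent.Results.MP_34eaa2_al.UndistortedInCentralisers
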